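import Pool.Agent.Helper71.Canopy.Reversal

/-!
Module C of the blueprint of helper37: branching recursion for the connection probability of two
points on the root column.
-/

namespace Pool.Agent.Helper37.Canopy

open MeasureTheory ProbabilityTheory unitInterval SimpleGraph

section C

variable {D : Type} [AddCommGroup D] [Fintype D] [DecidableEq D] [Nontrivial D]

/-! ### Auxiliary lemmas -/

lemma rcAux_Pr_mono {E : Type*} {p : I} {A B : Set (Cfg E)} (h : A ⊆ B) : Pr p A ≤ Pr p B :=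
  measureReal_mono h

lemma rcAux_Pr_le_one {E : Type*} {p : I} (A : Set (Cfg E)) : Pr p A ≤ 1 := by
  unfold Pr; exact measureReal_le_one

lemma rcAux_Pr_nonneg {E : Type*} {p : I} (A : Set (Cfg E)) : 0 ≤ Pr p A := measureReal_nonneg

lemma rcAux_Dep_mono {E : Type*} {S T : Set E} {A : Set (Cfg E)} (h : Dep S A) (hST : S ⊆ T) :
    Dep T A := fun ω ω' hω hA => h ω ω' (fun e he => hω e (hST he)) hA

lemma rcAux_Dep_inter {E : Type*} {S : Set E} {A B : Set (Cfg E)} (h : Dep S A)
    (h' : Dep S B) : Dep S (A ∩ B) :=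
  fun ω ω' hω hA => ⟨h ω ω' hω hA.1, h' ω ω' hω hA.2⟩

lemma rcAux_conn_mono {W : Type*} {G G' : SimpleGraph W} (h : G ≤ G') (x y : W) :
    conn G x y ⊆ conn G' x y := by
  intro ω hω
  exact SimpleGraph.Reachable.mono (opn_mono h le_rfl) hω

lemma rcAux_res_mono {W : Type*} {G : SimpleGraph W} {R R' : Set W} (h : R ⊆ R') :
    res G R ≤ res G R' := fun _ _ hxy => ⟨hxy.1, h hxy.2.1, h hxy.2.2⟩

lemma rcAux_BG_mono {K K' : ℕ} {a a' b b' : ℤ} (hK : K ≤ K') (ha : a' ≤ a) (hb : b ≤ b') :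
    BG D K a b ≤ BG D K' a' b' :=
  rcAux_res_mono fun _ hq => ⟨hq.1.trans hK, ha.trans hq.2.1, hq.2.2.trans hb⟩

lemma rcAux_box_finite (K : ℕ) (a b : ℤ) : (box D K a b).Finite := by
  have h1 : ({l : List D | l.length ≤ K} : Set (List D)).Finite := List.finite_length_le D K
  refine (h1.prod (Set.finite_Icc a b)).subset ?_
  rintro ⟨l, t⟩ ⟨h, h2, h3⟩
  exact ⟨h, h2, h3⟩

lemma rcAux_edge_finite {W : Type*} (G : SimpleGraph W) {R : Set W} (hR : R.Finite) :
    (res G R).edgeSet.Finite := by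
  refine ((hR.prod hR).image (fun q => s(q.1, q.2))).subset ?_
  intro e
  induction e with
  | _ x y =>
    intro h
    rw [SimpleGraph.mem_edgeSet] at h
    exact ⟨(x, y), ⟨h.2.1, h.2.2⟩, rfl⟩

lemma rcAux_BG_edge_finite (K : ℕ) (a b : ℤ) : (BG D K a b).edgeSet.Finite :=
  rcAux_edge_finite _ (rcAux_box_finite K a b)

theorem RootConn.mono {p : I} {K K' M L L' : ℕ} {c : ℝ} (h : RootConn D p K M L c)
    (hK : K ≤ K') (hL : L' ≤ L) : RootConn D p K' M L' c := by
  intro m hm
  exact (h m (hm.trans hL)).trans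
    (rcAux_Pr_mono (rcAux_conn_mono (rcAux_BG_mono hK le_rfl le_rfl) _ _))

lemma rcAux_RootConn_c {p : I} {K M L : ℕ} {c c' : ℝ} (h : RootConn D p K M L c)
    (hc : c' ≤ c) : RootConn D p K M L c' := fun m hm => hc.trans (h m hm)

/-- Harris for two connection events inside a finite graph. -/
lemma rcAux_harris_conn {W : Type*} {p : I} (G G' H : SimpleGraph W) (hG : G ≤ H) (hG' : G' ≤ H)
    (hH : H.edgeSet.Finite) (x y z w : W) :
    Pr p (conn G x y) * Pr p (conn G' z w) ≤ Pr p (conn G x y ∩ conn G' z w) := by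
  classical
  refine harris hH.toFinset ?_ ?_ (isUpperSet_conn G x y) (isUpperSet_conn G' z w)
  · refine rcAux_Dep_mono (conn_dep G x y) ?_
    simpa using SimpleGraph.edgeSet_subset_edgeSet.mpr hG
  · refine rcAux_Dep_mono (conn_dep G' z w) ?_
    simpa using SimpleGraph.edgeSet_subset_edgeSet.mpr hG'

/-- Vertical translation of connections. -/
lemma rcAux_translate {p : I} (K : ℕ) (a b t : ℤ) (x y : ℤ) :
    Pr p (conn (BG D K a b) ([], x) ([], y)) ≤
      Pr p (conn (BG D K (a + t) (b + t)) ([], x + t) ([], y + t)) := by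
  have h := Pr_conn_le (p := p) (G' := BG D K a b) (G := BG D K (a + t) (b + t))
    (fun q : List D × ℤ => (q.1, q.2 + t)) (R' := Set.univ) ?_ (fun _ _ _ => Set.mem_univ _) ?_
    ([], x) ([], y)
  · exact h
  · rintro ⟨z, i⟩ - ⟨z', i'⟩ - h
    simp only [Prod.mk.injEq, add_left_inj] at h
    rw [h.1, h.2]
  · rintro ⟨z, i⟩ ⟨z', i'⟩ h
    obtain ⟨h1, h2, h3⟩ := h
    refine ⟨?_, ⟨h2.1, ?_, ?_⟩, ⟨h3.1, ?_, ?_⟩⟩
    · unfold WZ at h1 ⊢
      rw [SimpleGraph.boxProd_adj] at h1 ⊢
      rcases h1 with ⟨h1, h4⟩ | ⟨h1, h4⟩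
      · left; exact ⟨h1, by simp only at h4 ⊢; rw [h4]⟩
      · right
        refine ⟨?_, h4⟩
        rw [zadj] at h1 ⊢
        simp only at h1 ⊢
        omega
    all_goals first
      | exact add_le_add_left h2.2.1 t
      | exact add_le_add_left h2.2.2 t
      | exact add_le_add_left h3.2.1 t
      | exact add_le_add_left h3.2.2 t

theorem rootConn_double {p : I} {K M L : ℕ} {c : ℝ} (hc : 0 ≤ c) (h : RootConn D p K M L c) :
    RootConn D p K M (2 * L) (c ^ 2) := by
  intro m hm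
  set m1 := m / 2 with hm1
  set m2 := m - m1 with hm2
  have e1 : m1 + m2 = m := by omega
  have e2 : m1 ≤ L := by omega
  have e3 : m2 ≤ L := by omega
  have h1 := h m1 e2
  have h2 := (h m2 e3).trans (rcAux_translate K (-(M : ℤ)) (m2 + M) m1 0 m2)
  have h3 := rcAux_harris_conn (p := p) (BG D K (-(M : ℤ)) (m1 + M))
    (BG D K (-(M : ℤ) + m1) (m2 + M + m1)) (BG D K (-(M : ℤ)) (m + M))
    (rcAux_BG_mono le_rfl le_rfl (by omega)) (rcAux_BG_mono le_rfl (by omega) (by omega))
    (rcAux_BG_edge_finite _ _ _) ([], 0) ([], (m1 : ℤ)) ([], 0 + (m1 : ℤ))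
    ([], (m2 : ℤ) + m1)
  calc c ^ 2 = c * c := by ring
    _ ≤ _ := mul_le_mul h1 h2 hc (rcAux_Pr_nonneg _)
    _ ≤ _ := h3
    _ ≤ _ := by
      refine rcAux_Pr_mono ?_
      rintro ω ⟨ha, hb⟩
      have ha' : ω ∈ conn (BG D K (-(M : ℤ)) (m + M)) ([], 0) ([], (m1 : ℤ)) :=
        rcAux_conn_mono (rcAux_BG_mono le_rfl le_rfl (by omega)) _ _ ha
      have hb' : ω ∈ conn (BG D K (-(M : ℤ)) (m + M)) ([], 0 + (m1 : ℤ)) ([], (m2 : ℤ) + m1) :=
        rcAux_conn_mono (rcAux_BG_mono le_rfl (by omega) (by omega)) _ _ hb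
      have e4 : ((m2 : ℤ) + m1) = m := by omega
      rw [e4, zero_add] at hb'
      exact ha'.trans hb'

/-- Words of length `s`. -/
def rcWords (D : Type) [Fintype D] [DecidableEq D] (s : ℕ) : Finset (List D) :=
  (Finset.univ : Finset (Fin s → D)).image List.ofFn

lemma rcAux_words_card (s : ℕ) : (rcWords D s).card = Fintype.card D ^ s := by
  unfold rcWords
  rw [Finset.card_image_of_injective _ List.ofFn_injective]
  simp

lemma rcAux_words_length {s : ℕ} {y : List D} (hy : y ∈ rcWords D s) : y.length = s := by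
  unfold rcWords at hy
  obtain ⟨f, -, rfl⟩ := Finset.mem_image.mp hy
  simp

lemma rcAux_concave {c : ℝ} (hc : 0 ≤ c) (hc1 : c ≤ 1) {j n : ℕ} (hjn : j ≤ n) :
    (j : ℝ) * (1 - (1 - c) ^ n) ≤ n * (1 - (1 - c) ^ j) := by
  set q := 1 - c with hq
  have hq0 : 0 ≤ q := by linarith
  have hq1 : q ≤ 1 := by linarith
  induction n, hjn using Nat.le_induction with
  | base => exact le_rfl
  | succ n hjn ih =>
    have h1 : (j : ℝ) * (q ^ n * (1 - q)) ≤ 1 - q ^ j := by
      rw [← mul_neg_geom_sum q j]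
      have : ∑ i ∈ Finset.range j, q ^ n ≤ ∑ i ∈ Finset.range j, q ^ i := by
        refine Finset.sum_le_sum fun i hi => ?_
        exact pow_le_pow_of_le_one hq0 hq1 (by have := Finset.mem_range.mp hi; omega)
      rw [Finset.sum_const, Finset.card_range, nsmul_eq_mul] at this
      have h2 : 0 ≤ 1 - q := by linarith
      calc (j : ℝ) * (q ^ n * (1 - q)) = (1 - q) * (j * q ^ n) := by ring
        _ ≤ _ := mul_le_mul_of_nonneg_left this h2
    have h3 : (j : ℝ) * (1 - q ^ (n + 1)) = j * (1 - q ^ n) + j * (q ^ n * (1 - q)) := by ring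
    rw [h3]
    push_cast
    linarith

lemma rcAux_append_adj (u : List D) {z z' : List D} (h : (WT D).Adj z z') :
    (WT D).Adj (u ++ z) (u ++ z') := by
  rcases h with ⟨a, h⟩ | ⟨a, h⟩
  · left; exact ⟨a, by rw [h, List.append_assoc]⟩
  · right; exact ⟨a, by rw [h, List.append_assoc]⟩

/-- The strip below the word `u`. -/
noncomputable def rcStrip (D : Type) (u : List D) (K : ℕ) (a b : ℤ) :
    SimpleGraph (List D × ℤ) :=
  res (WZ D) {q | (∃ z : List D, z.length ≤ K ∧ q.1 = u ++ z) ∧ a ≤ q.2 ∧ q.2 ≤ b}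

lemma rcAux_strip_le {p : I} {K M L : ℕ} {c : ℝ} (h : RootConn D p K M L c) (u : List D)
    (x y : ℤ) (hxy : x ≤ y) (hL : y - x ≤ L) :
    c ≤ Pr p (conn (rcStrip D u K (x - M) (y + M)) (u, x) (u, y)) := by
  obtain ⟨d, hd⟩ : ∃ d : ℕ, (d : ℤ) = y - x := ⟨(y - x).toNat, Int.toNat_of_nonneg (by omega)⟩
  have h1 := h d (by omega)
  refine h1.trans ?_
  have h := Pr_conn_le (p := p) (G' := BG D K (-(M : ℤ)) (d + M))
    (G := rcStrip D u K (x - M) (y + M))
    (fun q : List D × ℤ => (u ++ q.1, q.2 + x)) (R' := Set.univ) ?_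
    (fun _ _ _ => Set.mem_univ _) ?_ ([], 0) ([], (d : ℤ))
  · simp only [List.append_nil, zero_add] at h
    rw [show ((d : ℤ) + x) = y by omega] at h
    exact h
  · rintro ⟨z, i⟩ - ⟨z', i'⟩ - h
    simp only [Prod.mk.injEq, add_left_inj, List.append_cancel_left_eq] at h
    rw [h.1, h.2]
  · rintro ⟨z, i⟩ ⟨z', i'⟩ h
    obtain ⟨h1, h2, h3⟩ := h
    have h2a := h2.1
    have h2b := h2.2.1
    have h2c := h2.2.2
    have h3a := h3.1
    have h3b := h3.2.1
    have h3c := h3.2.2
    simp only at h2a h2b h2c h3a h3b h3c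
    refine ⟨?_, ⟨⟨z, h2a, rfl⟩, ?_, ?_⟩, ⟨⟨z', h3a, rfl⟩, ?_, ?_⟩⟩
    · unfold WZ at h1 ⊢
      rw [SimpleGraph.boxProd_adj] at h1 ⊢
      rcases h1 with ⟨h1, h4⟩ | ⟨h1, h4⟩
      · left; exact ⟨rcAux_append_adj u h1, by simp only at h4 ⊢; rw [h4]⟩
      · right
        refine ⟨?_, by simp only at h4 ⊢; rw [h4]⟩
        rw [zadj] at h1 ⊢
        simp only at h1 ⊢
        omega
    all_goals simp only; omega

lemma rcAux_strip_le' {p : I} {K M L : ℕ} {c : ℝ} (h : RootConn D p K M L c) (u : List D)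
    (x y : ℤ) (hL : |x - y| ≤ L) :
    c ≤ Pr p (conn (rcStrip D u K (min x y - M) (max x y + M)) (u, x) (u, y)) := by
  rcases le_total x y with hxy | hxy
  · rw [min_eq_left hxy, max_eq_right hxy]
    refine rcAux_strip_le h u x y hxy ?_
    rw [abs_of_nonpos (by omega)] at hL; omega
  · rw [min_eq_right hxy, max_eq_left hxy]
    refine (rcAux_strip_le h u y x hxy ?_).trans (rcAux_Pr_mono ?_)
    · rw [abs_of_nonneg (by omega)] at hL; omega
    · intro ω hω
      exact SimpleGraph.Reachable.symm hω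

/-! ### The downward events -/

/-- Edges with an endpoint over `Out`. -/
def rcS (D : Type) [Zero D] (s N : ℕ) : Set (Sym2 (List D × ℤ)) :=
  {e | ∃ q ∈ e, q.1 ∈ Out D s N}

omit [Fintype D] [DecidableEq D] [Nontrivial D] in
lemma rcAux_dropLast_length {s : ℕ} (hs : 1 ≤ s) {y : List D} (hy : y.length = s) :
    (y ++ List.replicate s (0 : D)).dropLast.length = 2 * s - 1 := by
  simp [hy]; omega

omit [Fintype D] [DecidableEq D] [Nontrivial D] in
lemma rcAux_dropLast_out {s K : ℕ} (hs : 1 ≤ s) {y : List D} (hy : y.length = s) :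
    (y ++ List.replicate s (0 : D)).dropLast ∈ Out D s (K + 2 * s) := by
  have h1 := rcAux_dropLast_length hs hy
  refine ⟨by omega, fun y' hy' h => ?_⟩
  have := h.length_le
  rw [h1] at this
  simp [hy'] at this
  omega

omit [Fintype D] [DecidableEq D] [Nontrivial D] in
lemma rcAux_not_out {s K : ℕ} {y z : List D} (hy : y.length = s) :
    y ++ List.replicate s (0 : D) ++ z ∉ Out D s K :=
  fun h => h.2 y hy (List.prefix_append _ _)

omit [Fintype D] [DecidableEq D] [Nontrivial D] in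
lemma rcAux_last_adj {s : ℕ} (hs : 1 ≤ s) (y : List D) (h : ℤ) :
    (WZ D).Adj ((y ++ List.replicate s 0).dropLast, h) (y ++ List.replicate s 0, h) := by
  unfold WZ
  rw [SimpleGraph.boxProd_adj]
  left
  refine ⟨Or.inl ?_, rfl⟩
  have hne : y ++ List.replicate s (0 : D) ≠ [] := by
    intro h
    have := congrArg List.length h
    simp at this; omega
  exact ⟨_, (List.dropLast_append_getLast hne).symm⟩

omit [Fintype D] [DecidableEq D] [Nontrivial D] in
lemma rcAux_downEv_dep (s K H : ℕ) (y : List D) (x : ℤ) :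
    Dep {e : Sym2 (List D × ℤ) |
      e ∈ (res (WZ D) {q | q.1 ∈ Out D s (K + 2 * s) ∧ |q.2 - x| ≤ H}).edgeSet ∨
      ∃ h : ℤ, |h - x| ≤ H ∧
        e = s(((y ++ List.replicate s 0).dropLast, h), (y ++ List.replicate s 0, h))}
      (downEv D s K H y x) := by
  rintro ω ω' hω ⟨h, h1, h2, h3⟩
  refine ⟨h, h1, ?_, ?_⟩
  · exact conn_dep _ _ _ ω ω' (fun e he => hω e (Or.inl he)) h2
  · rw [← hω _ (Or.inr ⟨h, h1, rfl⟩)]; exact h3

omit [Fintype D] [DecidableEq D] [Nontrivial D] in
lemma rcAux_downEv_dep_S {s K H : ℕ} (hs : 1 ≤ s) {y : List D} (hy : y.length = s) (x : ℤ) :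
    Dep (rcS D s (K + 2 * s)) (downEv D s K H y x) := by
  refine rcAux_Dep_mono (rcAux_downEv_dep s K H y x) ?_
  rintro e (he | ⟨h, -, rfl⟩)
  · induction e with
    | _ a b =>
      rw [SimpleGraph.mem_edgeSet] at he
      exact ⟨a, Sym2.mem_mk_left _ _, he.2.1.1⟩
  · exact ⟨_, Sym2.mem_mk_left _ _, rcAux_dropLast_out hs hy⟩

omit [Fintype D] [DecidableEq D] [Nontrivial D] in
lemma rcAux_downEv_dep_BG {s K H : ℕ} (hs : 1 ≤ s) {y : List D} (hy : y.length = s)
    (x a b : ℤ) (ha : a ≤ x - H) (hb : x + H ≤ b) :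
    Dep (BG D (K + 2 * s) a b).edgeSet (downEv D s K H y x) := by
  refine rcAux_Dep_mono (rcAux_downEv_dep s K H y x) ?_
  rintro e (he | ⟨h, h1, rfl⟩)
  · induction e with
    | _ q q' =>
      rw [SimpleGraph.mem_edgeSet] at he ⊢
      have e1 := abs_le.mp he.2.1.2
      have e2 := abs_le.mp he.2.2.2
      exact ⟨he.1, ⟨he.2.1.1.1, by omega, by omega⟩, ⟨he.2.2.1.1, by omega, by omega⟩⟩
  · rw [SimpleGraph.mem_edgeSet]
    have e1 := abs_le.mp h1
    refine ⟨rcAux_last_adj hs y h, ⟨?_, by simp only; omega, by simp only; omega⟩,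
      ⟨?_, by simp only; omega, by simp only; omega⟩⟩
    · simp only; rw [rcAux_dropLast_length hs hy]; omega
    · simp only [List.length_append, List.length_replicate, hy]; omega

omit [Fintype D] [DecidableEq D] [Nontrivial D] in
lemma rcAux_downEv_upper (s K H : ℕ) (y : List D) (x : ℤ) :
    IsUpperSet (downEv D s K H y x) := by
  rintro ω ω' hω ⟨h, h1, h2, h3⟩
  refine ⟨h, h1, isUpperSet_conn _ _ _ hω h2, ?_⟩
  have := hω s(((y ++ List.replicate s 0).dropLast, h), (y ++ List.replicate s 0, h))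
  rw [h3] at this
  exact le_antisymm (Bool.le_true _) this

/-- Using the spliced configuration: connection over `Out` from the root column to `u`. -/
lemma rcAux_down_splice {s K H : ℕ} {y : List D} (hs : 1 ≤ s) (hy : y.length = s)
    {x h : ℤ} {ω ω' : Cfg (Sym2 (List D × ℤ))} (a b : ℤ) (ha : a ≤ x - H) (hb : x + H ≤ b)
    (h1 : |h - x| ≤ H)
    (h2 : (opn (res (WZ D) {q | q.1 ∈ Out D s (K + 2 * s) ∧ |q.2 - x| ≤ H}) ω).Reachable
      ([], x) ((y ++ List.replicate s 0).dropLast, h))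
    (h3 : ω s(((y ++ List.replicate s 0).dropLast, h), (y ++ List.replicate s 0, h)) = true) :
    (opn (BG D (K + 2 * s) a b) (splice (rcS D s (K + 2 * s)) ω ω')).Reachable
      ([], x) (y ++ List.replicate s 0, h) := by
  have e1 := abs_le.mp h1
  have key : ∀ e ∈ rcS D s (K + 2 * s), splice (rcS D s (K + 2 * s)) ω ω' e = ω e := by
    intro e he
    unfold splice
    rw [if_pos he]
  refine SimpleGraph.Reachable.trans (SimpleGraph.Reachable.mono ?_ h2) ?_
  · rintro q q' ⟨hq, hq'⟩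
    have f1 := abs_le.mp hq.2.1.2
    have f2 := abs_le.mp hq.2.2.2
    refine ⟨⟨hq.1, ⟨hq.2.1.1.1, by omega, by omega⟩, ⟨hq.2.2.1.1, by omega, by omega⟩⟩, ?_⟩
    rw [key _ ⟨q, Sym2.mem_mk_left _ _, hq.2.1.1⟩]
    exact hq'
  · refine SimpleGraph.Adj.reachable ⟨⟨rcAux_last_adj hs y h, ⟨?_, by simp only; omega, by simp only; omega⟩,
      ⟨?_, by simp only; omega, by simp only; omega⟩⟩, ?_⟩
    · simp only; rw [rcAux_dropLast_length hs hy]; omega
    · simp only [List.length_append, List.length_replicate, hy]; omega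
    · rw [key _ ⟨_, Sym2.mem_mk_left _ _, rcAux_dropLast_out hs hy⟩]; exact h3

theorem rootConn_step {p : I} {θ c : ℝ} {s K M L H : ℕ} (hs : 1 ≤ s) (hK : 2 * s ≤ K)
    (hθ : 0 ≤ θ) (hc : 0 ≤ c)
    (harm : ∀ y : List D, y.length = s → ∀ x : ℤ, θ ≤ Pr p (downEv D s K H y x))
    (h : RootConn D p K M (L + 2 * H) c) :
    RootConn D p (K + 2 * s) (M + H) L (θ ^ 2 * (1 - (1 - c) ^ (Fintype.card D ^ s))) := by
  classical
  intro m hm
  have hc1 : c ≤ 1 := (h 0 (Nat.zero_le _)).trans (rcAux_Pr_le_one _)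
  have hcard : 0 < Fintype.card D := Fintype.card_pos
  set n := Fintype.card D ^ s with hn
  have hn0 : 0 < n := pow_pos hcard s
  set lo : ℤ := -((M + H : ℕ) : ℤ) with hlo
  set hi : ℤ := (m : ℤ) + ((M + H : ℕ) : ℤ) with hhi
  have hlo' : lo = -(M : ℤ) - H := by rw [hlo]; push_cast; ring
  have hhi' : hi = m + M + H := by rw [hhi]; push_cast; ring
  set T := conn (BG D (K + 2 * s) lo hi) ([], 0) ([], (m : ℤ)) with hT
  have hfin := rcAux_BG_edge_finite (D := D) (K + 2 * s) lo hi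
  -- the events
  set B : List D → Set (Cfg (Sym2 (List D × ℤ))) :=
    fun y => downEv D s K H y 0 ∩ downEv D s K H y m with hB
  have dep0 : ∀ y : List D, y.length = s → Dep ((hfin.toFinset : Finset _) : Set _)
      (downEv D s K H y 0) := by
    intro y hy
    rw [Set.Finite.coe_toFinset]
    exact rcAux_downEv_dep_BG hs hy 0 lo hi (by omega) (by omega)
  have depm : ∀ y : List D, y.length = s → Dep ((hfin.toFinset : Finset _) : Set _)
      (downEv D s K H y m) := by
    intro y hy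
    rw [Set.Finite.coe_toFinset]
    exact rcAux_downEv_dep_BG hs hy m lo hi (by omega) (by omega)
  have hBθ : ∀ y ∈ rcWords D s, θ ^ 2 ≤ Pr p (B y) := by
    intro y hy
    have hy' := rcAux_words_length hy
    calc θ ^ 2 = θ * θ := by ring
      _ ≤ Pr p (downEv D s K H y 0) * Pr p (downEv D s K H y m) :=
          mul_le_mul (harm y hy' 0) (harm y hy' m) hθ (rcAux_Pr_nonneg _)
      _ ≤ _ := harris hfin.toFinset (dep0 y hy') (depm y hy') (rcAux_downEv_upper _ _ _ _ _)
          (rcAux_downEv_upper _ _ _ _ _)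
  have hBm : ∀ y ∈ rcWords D s, MeasurableSet (B y) := by
    intro y hy
    have hy' := rcAux_words_length hy
    exact measurableSet_of_dep (rcAux_Dep_inter (dep0 y hy') (depm y hy'))
  have hTm : MeasurableSet T := measurableSet_conn _ _ _
  set β : ℝ := (1 - (1 - c) ^ n) / n with hβ
  have hβ0 : 0 ≤ β := by
    refine div_nonneg ?_ (Nat.cast_nonneg _)
    have : (1 - c) ^ n ≤ 1 := pow_le_one₀ (by linarith) (by linarith)
    linarith
  have main := sum_Pr_le_of_splice (p := p) (rcS D s (K + 2 * s)) hTm (rcWords D s) B hBm hβ0 ?_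
  · calc θ ^ 2 * (1 - (1 - c) ^ n) = β * (n * θ ^ 2) := by
          rw [hβ]; field_simp
      _ = β * ∑ y ∈ rcWords D s, θ ^ 2 := by
          rw [Finset.sum_const, rcAux_words_card, nsmul_eq_mul]
      _ ≤ β * ∑ y ∈ rcWords D s, Pr p (B y) :=
          mul_le_mul_of_nonneg_left (Finset.sum_le_sum hBθ) hβ0
      _ ≤ _ := main
  · intro ω
    set U := (rcWords D s).filter (fun y => ω ∈ B y) with hU
    have hsum : ∑ y ∈ rcWords D s, (B y).indicator (fun _ => (1 : ℝ)) ω = U.card := by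
      rw [hU, Finset.card_filter]
      push_cast
      refine Finset.sum_congr rfl fun y _ => ?_
      by_cases hy : ω ∈ B y
      · rw [Set.indicator_of_mem hy, if_pos hy]
      · rw [Set.indicator_of_notMem hy, if_neg hy]
    rw [hsum]
    have hUcard : U.card ≤ n := by
      rw [hn, ← rcAux_words_card (D := D) s]
      exact Finset.card_le_card (Finset.filter_subset _ _)
    have hβU : β * U.card ≤ 1 - (1 - c) ^ U.card := by
      have := rcAux_concave hc hc1 hUcard
      rw [hβ, div_mul_eq_mul_div, div_le_iff₀ (by exact_mod_cast hn0)]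
      linarith
    refine hβU.trans ?_
    -- choose heights
    have hex : ∀ y : List D, ∃ a b : ℤ, y ∈ U →
        (|a - 0| ≤ H ∧ (opn (res (WZ D) {q | q.1 ∈ Out D s (K + 2 * s) ∧ |q.2 - 0| ≤ H})
          ω).Reachable ([], 0) ((y ++ List.replicate s 0).dropLast, a) ∧
          ω s(((y ++ List.replicate s 0).dropLast, a), (y ++ List.replicate s 0, a)) = true) ∧
        (|b - m| ≤ H ∧ (opn (res (WZ D) {q | q.1 ∈ Out D s (K + 2 * s) ∧ |q.2 - m| ≤ H})
          ω).Reachable ([], (m : ℤ)) ((y ++ List.replicate s 0).dropLast, b) ∧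
          ω s(((y ++ List.replicate s 0).dropLast, b), (y ++ List.replicate s 0, b)) = true) := by
      intro y
      by_cases hy : y ∈ U
      · obtain ⟨-, ⟨a, ha⟩, ⟨b, hb⟩⟩ := Finset.mem_filter.mp hy
        exact ⟨a, b, fun _ => ⟨ha, hb⟩⟩
      · exact ⟨0, 0, fun h => absurd h hy⟩
    choose fa fb hab using hex
    set Gy : List D → SimpleGraph (List D × ℤ) := fun y =>
      rcStrip D (y ++ List.replicate s 0) K (min (fa y) (fb y) - M) (max (fa y) (fb y) + M)
      with hGy
    have hlen : ∀ y ∈ U, y.length = s := fun y hy =>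
      rcAux_words_length (Finset.mem_filter.mp hy).1
    have hun := le_Pr_biUnion (p := p) U (fun y => (Gy y).edgeSet)
      (fun y => conn (Gy y) (y ++ List.replicate s 0, fa y) (y ++ List.replicate s 0, fb y))
      ?_ (fun y _ => measurableSet_conn _ _ _) (fun y _ => conn_dep _ _ _) hc ?_
    · refine hun.trans (rcAux_Pr_mono ?_)
      intro ω' hω'
      simp only [Set.mem_iUnion] at hω'
      obtain ⟨y, hy, hω'⟩ := hω'
      obtain ⟨⟨a1, a2, a3⟩, ⟨b1, b2, b3⟩⟩ := hab y hy
      have hy' := hlen y hy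
      have c1 := rcAux_down_splice (ω' := ω') hs hy' lo hi (by omega) (by omega) a1 a2 a3
      have c2 := rcAux_down_splice (ω' := ω') hs hy' lo hi (by omega) (by omega) b1 b2 b3
      refine c1.trans (SimpleGraph.Reachable.trans (SimpleGraph.Reachable.mono ?_ hω') c2.symm)
      have a4 := abs_le.mp a1
      have b4 := abs_le.mp b1
      rintro q q' ⟨hq, hq'⟩
      obtain ⟨hq1, ⟨⟨z, hz, hz2⟩, hq2, hq3⟩, ⟨⟨z', hz', hz2'⟩, hq2', hq3'⟩⟩ := hq
      have m1 : -(H : ℤ) ≤ min (fa y) (fb y) := le_min (by omega) (by omega)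
      have m2 : max (fa y) (fb y) ≤ m + H := max_le (by omega) (by omega)
      refine ⟨⟨hq1, ⟨?_, by omega, by omega⟩, ⟨?_, by omega, by omega⟩⟩, ?_⟩
      · rw [hz2]; simp only [List.length_append, List.length_replicate, hy']; omega
      · rw [hz2']; simp only [List.length_append, List.length_replicate, hy']; omega
      · have : s(q, q') ∉ rcS D s (K + 2 * s) := by
          rintro ⟨r, hr, hr2⟩
          rw [Sym2.mem_iff] at hr
          rcases hr with rfl | rfl
          · rw [hz2] at hr2; exact rcAux_not_out hy' hr2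
          · rw [hz2'] at hr2; exact rcAux_not_out hy' hr2
        unfold splice
        rw [if_neg this]
        exact hq'
    · intro y hy y' hy' hne
      rw [Function.onFun, Set.disjoint_left]
      intro e he he'
      induction e with
      | _ q q' =>
        simp only [SimpleGraph.mem_edgeSet] at he he'
        obtain ⟨⟨z, hz, hz2⟩, -⟩ := he.2.1
        obtain ⟨⟨z', hz', hz2'⟩, -⟩ := he'.2.1
        rw [hz2] at hz2'
        have := List.append_inj_left hz2' (by
          simp [hlen y hy, hlen y' hy'])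
        exact hne (List.append_inj_left this (by rw [hlen y hy, hlen y' hy']))
    · intro y hy
      obtain ⟨⟨a1, a2, a3⟩, ⟨b1, b2, b3⟩⟩ := hab y hy
      have a4 := abs_le.mp a1
      have b4 := abs_le.mp b1
      refine rcAux_strip_le' h _ _ _ ?_
      rw [abs_le]
      push_cast
      constructor <;> omega

theorem rootConn_all {p : I} {θ : ℝ} (hθ : 0 < θ) (hA : ArmHyp D p θ)
    (hL : LeafConn D p (θ ^ 2 / 2)) :
    ∃ k K₀ M₀ H : ℕ, ∀ i : ℕ, RootConn D p (K₀ + k * i) (M₀ + H * i) (2 ^ i) (θ ^ 2 / 2) := by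
  classical
  set c := θ ^ 2 / 2 with hc
  have hc0 : 0 < c := by positivity
  have hb : 2 ≤ Fintype.card D := Fintype.one_lt_card
  have hc1 : c ≤ 1 := by
    obtain ⟨k, M, h⟩ := hL 0
    exact h.trans (rcAux_Pr_le_one _)
  have hq0 : 0 ≤ 1 - c ^ 2 := by nlinarith
  have hq1 : 1 - c ^ 2 < 1 := by nlinarith
  obtain ⟨t, ht⟩ := exists_pow_lt_of_lt_one (show (0 : ℝ) < 1 / 2 by norm_num) hq1
  set s := t + 1 with hs
  have hst : t ≤ Fintype.card D ^ s := by
    have h1 : s < 2 ^ s := Nat.lt_two_pow_self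
    have h2 : 2 ^ s ≤ Fintype.card D ^ s := Nat.pow_le_pow_left hb s
    omega
  have hpow : (1 - c ^ 2) ^ (Fintype.card D ^ s) ≤ 1 / 2 :=
    (pow_le_pow_of_le_one hq0 hq1.le hst).trans ht.le
  have hs1 : 1 ≤ s := by omega
  obtain ⟨H, hH⟩ := hA (2 * s)
  obtain ⟨K₀, M₀, h0⟩ := rootConn_base hL (2 * H + 1)
  refine ⟨2 * s, K₀ + 2 * s, M₀, H, ?_⟩
  have key : ∀ i : ℕ, RootConn D p (K₀ + 2 * s + 2 * s * i) (M₀ + H * i) (2 ^ i + 2 * H) c := by
    intro i
    induction i with
    | zero =>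
      have := h0.mono (K' := K₀ + 2 * s) (L' := 2 * H + 1) (by omega) le_rfl
      simpa [add_comm] using this
    | succ i ih =>
      have h1 := rootConn_double hc0.le ih
      have h2 : 2 * (2 ^ i + 2 * H) = (2 ^ (i + 1) + 2 * H) + 2 * H := by rw [pow_succ]; ring
      rw [h2] at h1
      have h3 := rootConn_step (θ := θ) (K := K₀ + 2 * s + 2 * s * i) (H := H) hs1
        (by omega) hθ.le (by positivity)
        (fun y hy x => le_Pr_downEv hs1 (by omega) hH y hy x) h1
      have h4 : K₀ + 2 * s + 2 * s * i + 2 * s = K₀ + 2 * s + 2 * s * (i + 1) := by ring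
      have h5 : M₀ + H * i + H = M₀ + H * (i + 1) := by ring
      rw [h4, h5] at h3
      refine rcAux_RootConn_c h3 ?_
      have : (0 : ℝ) < θ ^ 2 := by positivity
      nlinarith
  intro i
  exact (key i).mono le_rfl (by omega)

end C

end Pool.Agent.Helper37.Canopy
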